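import Mathlib

/-! Decoding a countable set and a real from one countable set; omega-Jonsson functions. -/

set_option autoImplicit false

universe u

namespace Pool.Agent.P.MP_36361b_lc

open Cardinal Set Function

theorem inj_choice {J Y : Type u} (S : J → Set Y) (h : ∀ j, #J ≤ #(S j)) :
    ∃ f : J → Y, Injective f ∧ ∀ j, f j ∈ S j := by
  classical
  obtain ⟨lo, wf, ho⟩ := Cardinal.exists_ord_eq_type_lt J
  have step : ∀ (j : J) (g : ∀ i, i < j → Y), ∃ y ∈ S j, ∀ i (hi : i < j), g i hi ≠ y := by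
    intro j g
    by_contra hcon
    push Not at hcon
    have hsub : S j ⊆ range (fun i : Iio j => g i.1 i.2) := by
      intro y hy
      obtain ⟨i, hi, e⟩ := hcon y hy
      exact ⟨⟨i, hi⟩, e⟩
    have h1 : #(S j) ≤ #(Iio j) := (mk_le_mk_of_subset hsub).trans mk_range_le
    have h2 : #(Iio j) < #J := Cardinal.mk_Iio_lt j ho
    exact absurd ((h j).trans h1) (not_le.2 h2)
  choose nxt hn1 hn2 using step
  let f : J → Y := (wellFounded_lt (α := J)).fix nxt
  have hf : ∀ j, f j = nxt j (fun i _ => f i) := fun j => (wellFounded_lt (α := J)).fix_eq nxt j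
  refine ⟨f, ?_, fun j => by rw [hf j]; exact hn1 _ _⟩
  have hlt : ∀ i j, i < j → f i ≠ f j := by
    intro i j hij
    have := hn2 j (fun i _ => f i) i hij
    rwa [← hf j] at this
  intro i j hij
  rcases lt_trichotomy i j with h1 | h1 | h1
  · exact absurd hij (hlt i j h1)
  · exact h1
  · exact absurd hij.symm (hlt j i h1)

variable {α : Type u}

/-- A maximal almost disjoint family of countable sets. -/
theorem ex_mad (α : Type u) : ∃ M : Set (Set α), (∀ a ∈ M, a.Countable) ∧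
    (∀ a ∈ M, ∀ b ∈ M, (a ∩ b).Infinite → a = b) ∧
    ∀ z : Set α, z.Countable → z.Infinite → ∃ a ∈ M, (a ∩ z).Infinite := by
  obtain ⟨M, hM⟩ := zorn_subset {M : Set (Set α) | (∀ a ∈ M, a.Countable) ∧
      ∀ a ∈ M, ∀ b ∈ M, (a ∩ b).Infinite → a = b} fun c hc hch =>
    ⟨⋃₀ c, ⟨fun a ⟨s, hs, ha⟩ => (hc hs).1 a ha, fun a ⟨s, hs, ha⟩ b ⟨t, ht, hb⟩ => by
      rcases hch.total hs ht with e | e
      · exact (hc ht).2 a (e ha) b hb
      · exact (hc hs).2 a ha b (e hb)⟩, fun s hs => subset_sUnion_of_mem hs⟩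
  refine ⟨M, hM.prop.1, hM.prop.2, fun z h1 h2 => by_contra fun hn => ?_⟩
  push Not at hn
  have : insert z M ⊆ M := hM.le_of_ge (y := insert z M) ⟨?_, ?_⟩ (subset_insert _ _)
  · exact h2 (by simpa using hn z (this (mem_insert _ _)))
  · rintro a (rfl | ha)
    exacts [h1, hM.prop.1 a ha]
  · rintro a (rfl | ha) b (rfl | hb) e
    · rfl
    · exact (e (inter_comm _ _ ▸ hn b hb)).elim
    · exact (e (hn a ha)).elim
    · exact hM.prop.2 a ha b hb e

/-- Inside one countable set. -/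
theorem dec_in {a : Set α} (ha : a.Countable) : ∃ D : Set α → Set α × Set ℕ, ∀ p ⊆ a, ∀ z ⊆ a,
    z.Infinite → Disjoint p z → ∀ w, ∃ y ⊆ z, y.Infinite ∧ D (p ∪ y) = (p, w) := by
  classical
  let J := {j : (Set α × Set α) × ULift.{u} (Set ℕ) //
    j.1.1 ⊆ a ∧ j.1.2 ⊆ a ∧ j.1.2.Infinite ∧ Disjoint j.1.1 j.1.2}
  have hP : #(𝒫 a) ≤ 𝔠 := by
    rw [mk_powerset, ← two_power_aleph0]
    exact power_le_power_left two_ne_zero (le_aleph0_iff_set_countable.2 ha)
  have hJ : #J ≤ 𝔠 := by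
    have : #J ≤ #((𝒫 a × 𝒫 a) × ULift.{u} (Set ℕ)) := mk_le_of_injective
      (f := fun j => ((⟨j.1.1.1, j.2.1⟩, ⟨j.1.1.2, j.2.2.1⟩), j.1.2)) fun i j e => by
        simp only [Prod.mk.injEq, Subtype.mk.injEq] at e
        exact Subtype.ext (Prod.ext (Prod.ext e.1.1 e.1.2) e.2)
    refine this.trans ?_
    simp only [mk_prod, lift_id, mk_uLift, mk_set, mk_nat, two_power_aleph0, lift_continuum]
    exact (mul_le_mul_left ((mul_le_mul' hP hP).trans_eq continuum_mul_self) _).trans_eq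
      continuum_mul_self
  obtain ⟨φ, h1, h2⟩ := inj_choice (fun j : J => {t | ∃ y ⊆ j.1.1.2, y.Infinite ∧ t = j.1.1.1 ∪ y})
    fun j => hJ.trans (by
      let e := j.2.2.2.1.natEmbedding
      have he : Injective fun n => (e n : α) := Subtype.val_injective.comp e.injective
      have key : ∀ (T : Set ℕ) (n : ℕ), (e (2 * n + 1) : α) ∈ j.1.1.1 ∪ (fun n => (e n : α)) ''
          {m | Even m ∨ m / 2 ∈ T} ↔ n ∈ T := fun T n => by
        rw [mem_union, he.mem_set_image, or_iff_right (disjoint_right.1 j.2.2.2.2 (e _).2),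
          mem_ofPred_eq, show (2 * n + 1) / 2 = n by omega, or_iff_right (by simp)]
      have := mk_le_of_injective (α := ULift.{u} (Set ℕ))
        (β := {t | ∃ y ⊆ j.1.1.2, y.Infinite ∧ t = j.1.1.1 ∪ y})
        (f := fun T => ⟨_, (fun n => (e n : α)) '' {m | Even m ∨ m / 2 ∈ T.down},
          by rintro _ ⟨n, -, rfl⟩; exact (e n).2,
          (infinite_of_injective_forall_mem (s := {m | Even m ∨ m / 2 ∈ T.down})
            (f := fun n : ℕ => 2 * n) (fun _ _ h => by simpa using h)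
            fun n => Or.inl (even_two_mul n)).image he.injOn, rfl⟩)
        fun T T' h => ULift.ext _ _ (Set.ext fun n => by
          rw [← key T.down, ← key T'.down, Subtype.mk.inj h])
      simpa using this)
  refine ⟨fun t => if h : ∃ j, φ j = t then (h.choose.1.1.1, h.choose.1.2.down) else (∅, ∅),
    fun p hp z hz hi hd w => ?_⟩
  obtain ⟨y, y1, y2, y3⟩ := h2 ⟨((p, z), ⟨w⟩), hp, hz, hi, hd⟩
  have h : ∃ j, φ j = p ∪ y := ⟨_, y3⟩
  refine ⟨y, y1, y2, ?_⟩
  simp only [dif_pos h]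
  rw [h1 (h.choose_spec.trans y3.symm)]

/-- A set and a real can be read off from a suitable end extension. -/
theorem dec [LinearOrder α] : ∃ D : Set α → Set α × Set ℕ, ∀ (x : Set α) (s : ℕ → α),
    StrictMono s → (∀ a ∈ x, a < s 0) → ∀ w, ∃ y ⊆ range s, y.Infinite ∧ D (x ∪ y) = (x, w) := by
  classical
  obtain ⟨M, m1, m2, m3⟩ := ex_mad α
  choose D hD using fun a : M => dec_in (m1 a.1 a.2)
  refine ⟨fun t => if h : ∃ a : M, ∃ b ∈ t, t ∩ Ioi b ⊆ a.1 then
    (t \ h.choose.1 ∪ (D h.choose (t ∩ h.choose.1)).1, (D h.choose (t ∩ h.choose.1)).2)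
    else (∅, ∅), fun x s hs hx w => ?_⟩
  obtain ⟨a, ha, hi⟩ := m3 (range s) (countable_range s) (infinite_range_of_injective hs.injective)
  have lt : ∀ b ∈ x, ∀ c ∈ range s, b < c := by
    rintro b hb _ ⟨n, rfl⟩
    exact (hx b hb).trans_le (hs.monotone (Nat.zero_le n))
  obtain ⟨y, y1, y2, y3⟩ := hD ⟨a, ha⟩ (x ∩ a) inter_subset_right (a ∩ range s) inter_subset_left hi
    (disjoint_left.2 fun b h1 h2 => (lt b h1.1 b h2.2).false) w
  have tail : ∀ b ∈ x ∪ y, (y ∩ Ioi b).Infinite := fun b hb => by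
    obtain ⟨n, hn⟩ : ∃ n, b ≤ s n := hb.elim (fun h => ⟨0, (hx b h).le⟩)
      fun h => let ⟨n, e⟩ := (y1 h).2; ⟨n, e.ge⟩
    refine (y2.sdiff ((finite_Iic n).image s)).mono fun c hc => ⟨hc.1, ?_⟩
    obtain ⟨m, rfl⟩ := (y1 hc.1).2
    exact hn.trans_lt (hs (not_le.1 fun e => hc.2 ⟨m, e, rfl⟩))
  obtain ⟨b, hb⟩ := y2.nonempty
  have h : ∃ a : M, ∃ b ∈ x ∪ y, (x ∪ y) ∩ Ioi b ⊆ a.1 := ⟨⟨a, ha⟩, b, Or.inr hb, fun c hc =>
    hc.1.elim (fun e => (lt_asymm (lt c e b (y1 hb).2) hc.2).elim) fun e => (y1 e).1⟩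
  have e : h.choose = ⟨a, ha⟩ := by
    obtain ⟨c, hc, e⟩ := h.choose_spec
    exact Subtype.ext (m2 _ h.choose.2 a ha ((tail c hc).mono fun d hd =>
      ⟨e ⟨Or.inr hd.1, hd.2⟩, (y1 hd.1).1⟩))
  have e1 : (x ∪ y) ∩ a = x ∩ a ∪ y := by
    rw [union_inter_distrib_right, inter_eq_left.2 fun c hc => (y1 hc).1]
  refine ⟨y, fun c hc => (y1 hc).2, y2, ?_⟩
  simp only [dif_pos h, e, e1, y3]
  refine Prod.ext (Set.ext fun c => ?_) rfl
  have := @y1 c
  simp only [mem_union, mem_sdiff, mem_inter_iff] at this ⊢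
  tauto

end Pool.Agent.P.MP_36361b_lc
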