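import Mathlib

/-! Omega-Jonsson functions and closure under operations on countable sets. -/

set_option autoImplicit false

universe u

namespace Pool.Agent.P.MP_36361b_lc

open Cardinal Set Function
open scoped symmDiff

variable {α : Type u}

theorem mk_sdiff_big {S T : Set α} (h : ℵ₀ ≤ #S) (h' : #T < #S) : #(S \ T : Set α) = #S :=
  le_antisymm (mk_le_mk_of_subset sdiff_subset) (not_lt.1 fun e =>
    (add_lt_of_lt h e h').not_ge (le_mk_sdiff_add_mk S T))

theorem gp_core (α : Type u) [Infinite α] : ∃ (g : Set α → α) (A : Set α), #A = #α ∧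
    ∀ B ⊆ A, #B = #α → ∀ a ∈ A, ∃ x ⊆ B, x.Countable ∧ x.Infinite ∧ g x = a := by
  classical
  let E : Setoid (Set α) := ⟨fun x y => (x ∆ y).Finite, fun x => by simp,
    fun h => by rwa [symmDiff_comm], fun {x y z} h h' =>
      (h.union h').subset (symmDiff_triangle x y z)⟩
  let r : Set α → Set α := fun x => (Quotient.mk E x).out
  have r1 : ∀ x, (r x ∆ x).Finite := fun x => Quotient.mk_out (s := E) x
  have hι : ∀ c : Set α, ∃ ι : α → ℕ, c.Countable → InjOn ι c := fun c => by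
    by_cases h : c.Countable
    · exact (countable_iff_exists_injOn.1 h).imp fun _ h _ => h
    · exact ⟨0, fun h' => (h h').elim⟩
  choose ι hι using hι
  let g : Set α → α := fun x =>
    Classical.epsilon fun a => a ∈ r x \ x ∧ ∀ b ∈ r x \ x, ι (r x) b ≤ ι (r x) a
  refine ⟨g, by_contra fun hn => ?_⟩
  push Not at hn
  have step : ∀ A : {A : Set α // #A = #α}, ∃ B : {A : Set α // #A = #α}, ∃ a ∈ A.1,
      B.1 ⊆ A.1 ∧ a ∉ B.1 ∧ ∀ x ⊆ B.1, x.Countable → x.Infinite → g x ≠ a := fun A => by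
    obtain ⟨B, h1, h2, a, h3, h4⟩ := hn A.1 A.2
    refine ⟨⟨B \ {a}, ?_⟩, a, h3, sdiff_subset.trans h1, fun h => h.2 rfl,
      fun x hx => h4 x (hx.trans sdiff_subset)⟩
    rw [mk_sdiff_big (h2 ▸ aleph0_le_mk α) ((mk_singleton a).trans_lt
      (one_lt_aleph0.trans_le (h2 ▸ aleph0_le_mk α))), h2]
  choose B a a1 a2 a3 a4 using step
  let A : ℕ → {A : Set α // #A = #α} := fun n => B^[n] ⟨univ, mk_univ⟩
  have A1 : ∀ n, A (n + 1) = B (A n) := fun n => iterate_succ_apply' B n _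
  have A2 : Antitone fun n => (A n).1 := antitone_nat_of_succ_le fun n => A1 n ▸ a2 (A n)
  have A3 : ∀ n m, n < m → a (A m) ∈ (B (A n)).1 := fun n m h => A1 n ▸ A2 h (a1 (A m))
  have inj : Injective fun n => a (A n) := fun n m h => by
    by_contra hne
    rcases lt_or_gt_of_ne hne with e | e
    · exact a3 _ ((show a (A n) = a (A m) from h) ▸ A3 n m e)
    · exact a3 _ ((show a (A n) = a (A m) from h) ▸ A3 m n e)
  set y := range fun n => a (A n) with hy
  have f1 : (r y \ y).Finite := (r1 y).subset fun b hb => Or.inl hb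
  have f2 : (y \ r y).Finite := (r1 y).subset fun b hb => Or.inr hb
  have c1 : (r y).Countable := (f1.countable.union (countable_range _)).mono fun b hb => by
    by_cases h : b ∈ y
    exacts [Or.inr h, Or.inl ⟨hb, h⟩]
  obtain ⟨N, hN⟩ := (f1.image (ι (r y))).bddAbove
  have ex : ∃ n, a (A n) ∈ r y ∧ N < ι (r y) (a (A n)) := by
    have : (y \ (y \ r y)).Infinite := (infinite_range_of_injective inj).sdiff f2
    rw [Set.sdiff_sdiff_right_self] at this
    obtain ⟨_, ⟨_, ⟨⟨n, rfl⟩, h⟩, rfl⟩, h'⟩ :=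
      (this.image ((hι _ c1).mono inter_subset_right)).exists_gt N
    exact ⟨n, h, h'⟩
  let n := Nat.find ex
  let x := (fun n => a (A n)) '' Ioi n
  have e : r x = r y := congrArg Quotient.out (Quotient.sound (((finite_Iic n).image
    fun n => a (A n)).subset (by
      rintro b (⟨⟨m, -, rfl⟩, h⟩ | ⟨⟨m, rfl⟩, h⟩)
      · exact (h ⟨m, rfl⟩).elim
      · exact ⟨m, mem_Iic.2 (not_lt.1 fun e => h ⟨m, e, rfl⟩), rfl⟩)))
  have m1 : a (A n) ∈ r x \ x := ⟨e ▸ (Nat.find_spec ex).1, fun ⟨m, h, h'⟩ => h.ne' (inj h')⟩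
  have m2 : ∀ b ∈ r x \ x, ι (r x) b ≤ ι (r x) (a (A n)) := fun b hb => by
    rw [e] at hb ⊢
    by_cases h : b ∈ y
    · obtain ⟨m, rfl⟩ := h
      rcases (not_lt.1 fun e => hb.2 ⟨m, e, rfl⟩ : m ≤ n).eq_or_lt with rfl | h
      · exact le_rfl
      · exact (not_lt.1 fun e => Nat.find_min ex h ⟨hb.1, e⟩).trans (Nat.find_spec ex).2.le
    · exact (hN ⟨b, ⟨hb.1, h⟩, rfl⟩).trans (Nat.find_spec ex).2.le
  have m3 := Classical.epsilon_spec (p := fun a => a ∈ r x \ x ∧
    ∀ b ∈ r x \ x, ι (r x) b ≤ ι (r x) a) ⟨_, m1, m2⟩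
  refine a4 (A n) x (by rintro _ ⟨m, h, rfl⟩; exact A3 n m h) ((to_countable _).image _)
    ((Ioi_infinite n).image inj.injOn) ?_
  exact hι _ (e ▸ c1) m3.1.1 m1.1 (le_antisymm (m2 _ m3.1) (m3.2 _ m1))

/-- An omega-Jonsson function on an infinite set. -/
theorem gp {S : Set α} (hS : S.Infinite) : ∃ J : Set α → α,
    ∀ Y ⊆ S, #Y = #S → ∀ s ∈ S, ∃ x ⊆ Y, x.Countable ∧ x.Infinite ∧ J x = s := by
  have := hS.to_subtype
  obtain ⟨g, A, h1, h2⟩ := gp_core S
  obtain ⟨e⟩ := Cardinal.eq.1 h1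
  let φ : S → α := Subtype.val ∘ invFun fun s => (e.symm s : S)
  let ψ : α → S := fun b => e.symm (invFun Subtype.val b)
  have i1 : InjOn ψ S := fun b hb c hc h => by
    have := e.symm.injective (Subtype.ext h)
    have l := leftInverse_invFun (Subtype.val_injective (p := (· ∈ S)))
    exact congrArg Subtype.val ((l ⟨b, hb⟩).symm.trans (this.trans (l ⟨c, hc⟩)))
  refine ⟨fun x => φ (g (ψ '' x)), fun Y hY hc s hs => ?_⟩
  obtain ⟨x, x1, x2, x3, x4⟩ := h2 (ψ '' Y) (by rintro _ ⟨b, -, rfl⟩; exact (e.symm _).2)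
    ((mk_image_eq_of_injOn _ _ (i1.mono hY)).trans hc) _ (e.symm ⟨s, hs⟩).2
  obtain ⟨z, z1, rfl⟩ := subset_image_iff.1 x1
  refine ⟨z, z1, countable_of_injective_of_countable_image (i1.mono (z1.trans hY)) x2,
    x3.of_image, ?_⟩
  simp only [x4, φ, comp_apply]
  exact congrArg Subtype.val
    (leftInverse_invFun (Subtype.val_injective.comp e.symm.injective) ⟨s, hs⟩)

/-- Closed under the operations `G` on countable sets. -/
def Cld (G : Set α → Set α) (X : Set α) : Prop := ∀ x ⊆ X, x.Countable → G x ⊆ X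

/-- The closure. -/
def Cl (G : Set α → Set α) (B : Set α) : Set α := ⋂₀ {X | B ⊆ X ∧ Cld G X}

variable {G : Set α → Set α}

theorem sub_cl (B : Set α) : B ⊆ Cl G B := subset_sInter fun _ h => h.1

theorem cl_sub {B X : Set α} (h : B ⊆ X) (h' : Cld G X) : Cl G B ⊆ X :=
  sInter_subset_of_mem ⟨h, h'⟩

theorem cld_cl (B : Set α) : Cld G (Cl G B) := fun x hx hc =>
  subset_sInter fun _ h => h.2 x (hx.trans (cl_sub h.1 h.2)) hc

theorem cl_supp {B : Set α} {a : α} (h : a ∈ Cl G B) : ∃ x ⊆ B, x.Countable ∧ a ∈ Cl G x := by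
  refine cl_sub (X := {a | ∃ x ⊆ B, x.Countable ∧ a ∈ Cl G x}) (fun b hb =>
    ⟨{b}, singleton_subset_iff.2 hb, countable_singleton b, sub_cl _ rfl⟩) (fun y hy hc b hb => ?_) h
  choose! x x1 x2 x3 using fun c (h : c ∈ y) => mem_ofPred_eq ▸ hy h
  exact ⟨⋃ c ∈ y, x c, iUnion₂_subset x1, hc.biUnion x2, cld_cl _ y (fun c h =>
    cl_sub ((subset_biUnion_of_mem h).trans (sub_cl _)) (cld_cl _) (x3 c h)) hc hb⟩

theorem cl_small [Nonempty α] (hG : ∀ x, x.Countable → (G x).Countable) {x : Set α}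
    (hx : x.Countable) : #(Cl G x) ≤ 𝔠 := by
  have hg : ∀ y : Set α, ∃ g : ℕ → α, y.Countable → y ⊆ range g := fun y => by
    by_cases h : y.Countable
    · exact ⟨enumerateCountable h (Classical.arbitrary α), fun _ => subset_range_enumerate h _⟩
    · exact ⟨fun _ => Classical.arbitrary α, fun h' => (h h').elim⟩
  choose g hg using hg
  let β : ℕ ⊕ ℕ → Type := Sum.elim (fun _ => Empty) fun _ => ℕ
  let ev : WType β → α := WType.elim α fun p => match p with
    | ⟨.inl n, _⟩ => g (x ∪ G ∅) n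
    | ⟨.inr n, f⟩ => g (G (range f)) n
  have c0 := hg _ (hx.union (hG _ countable_empty))
  have l0 : range (g (x ∪ G ∅)) ⊆ range ev := by
    rintro _ ⟨n, rfl⟩
    exact ⟨.mk (.inl n) Empty.elim, rfl⟩
  have h1 : Cl G x ⊆ range ev := cl_sub (subset_union_left.trans (c0.trans l0)) fun y hy hc => by
    rcases y.eq_empty_or_nonempty with rfl | hne
    · exact subset_union_right.trans (c0.trans l0)
    · obtain ⟨f, rfl⟩ := hc.exists_eq_range hne
      choose t ht using fun n => hy (mem_range_self n)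
      refine (hg _ (hG _ hc)).trans ?_
      rintro _ ⟨n, rfl⟩
      exact ⟨.mk (.inr n) t, congrArg (fun f => g (G (range f)) n) (funext ht)⟩
  have h2 : #(WType β) ≤ 𝔠 := by
    refine WType.cardinalMk_le_of_le' ((sum_le_sum _ (fun _ => 𝔠) fun a => ?_).trans (by simp))
    rcases a with n | n
    · simpa [β] using one_le_aleph0.trans aleph0_le_continuum
    · simp [β]
  have h3 := (lift_le.{0}.2 (mk_le_mk_of_subset h1)).trans (mk_range_le_lift (f := ev))
  simpa using h3.trans (lift_le.{u}.2 h2)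

end Pool.Agent.P.MP_36361b_lc
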