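import Pool.Agent.P.MP_36361b_lc.Defs
import Pool.Agent.P.MP_36361b_lc.Dec
import Pool.Agent.P.MP_36361b_lc.Jon

/-! Basic facts on the arrow relation and countably closed hulls. -/

set_option autoImplicit false

universe u

namespace Pool.Agent.P.MP_36361b_lc

open Cardinal Set Function Order

variable {l k : Cardinal.{u}}

theorem mk_ord (c : Cardinal.{u}) : #(Iio c.ord) = lift.{u + 1} c := by
  rw [mk_Iio_ordinal, card_ord]

theorem seg {X : Set Ordinal.{u}} {τ : Cardinal.{u + 1}} (h : τ < #X) :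
    ∃ d ∈ X, #(X ∩ Iio d : Set Ordinal.{u}) = τ := by
  have h1 : τ.ord < Ordinal.type (α := X) (· < ·) := not_le.1 fun e =>
    h.not_ge (by simpa using Ordinal.card_le_card e)
  obtain ⟨d, hd⟩ := Ordinal.typein_surj _ h1
  refine ⟨d, d.2, ?_⟩
  rw [← card_ord τ, ← hd, Ordinal.card_typein]
  exact mk_congr ⟨fun a => ⟨⟨a, a.2.1⟩, a.2.2⟩, fun a => ⟨a.1, a.1.2, a.2⟩, fun _ => rfl,
    fun _ => rfl⟩

theorem sup_lt {x : Set Ordinal.{u}} {d e : Ordinal.{u}} (h : ∀ a ∈ x, a ≤ d) (h' : d < e) :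
    sSup x < e := (csSup_le' h).trans_lt h'

theorem not_arrow (hk : 0 < k) (f : Set Ordinal.{u} → Ordinal.{u})
    (h : ∀ A ⊆ Iio l.ord, #A = lift.{u + 1} l → ∀ ξ < k.ord, ∃ x ∈ Bd l A, f x = ξ) :
    ¬Arrow l k := fun hA => by
  have h0 : 0 < k.ord := by simpa [lt_ord] using hk
  have h1 : ∀ x, (if f x < k.ord then f x else 0) < k.ord := fun x => by split_ifs <;> assumption
  obtain ⟨A, a1, a2, a3⟩ := hA _ h1
  refine a3 (Subset.antisymm (by rintro _ ⟨x, -, rfl⟩; exact h1 x) fun ξ hξ => ?_)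
  obtain ⟨x, x1, rfl⟩ := h A a1 a2 ξ hξ
  exact ⟨x, x1, if_pos hξ⟩

theorem of_not_arrow (h : ¬Arrow l k) : ∃ f : Set Ordinal.{u} → Ordinal.{u},
    ∀ A ⊆ Iio l.ord, #A = lift.{u + 1} l → ∀ ξ < k.ord, ∃ x ∈ Bd l A, f x = ξ := by
  unfold Arrow at h
  push Not at h
  obtain ⟨f, -, h⟩ := h
  exact ⟨f, fun A a1 a2 ξ hξ => (h A a1 a2).ge hξ⟩

theorem Arrow.mono {k' : Cardinal.{u}} (h : Arrow l k) (hk : 0 < k) (hk' : k ≤ k') :
    Arrow l k' := by_contra fun hn => by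
  obtain ⟨f, hf⟩ := of_not_arrow hn
  exact not_arrow hk f (fun A a1 a2 ξ hξ => hf A a1 a2 ξ (hξ.trans_le (ord_le_ord.2 hk'))) h

theorem tail {A : Set Ordinal.{u}} (hl : ℵ₀ ≤ l) (a2 : #A = lift.{u + 1} l) {d : Ordinal.{u}}
    (hd : d < l.ord) : #(A \ Iio d : Set Ordinal.{u}) = lift.{u + 1} l := by
  rw [mk_sdiff_big (a2 ▸ aleph0_le_lift.2 hl), a2]
  rw [a2, mk_Iio_ordinal, lift_lt]
  exact lt_ord.1 hd

theorem Magidor.lim (h : Magidor l) {m : Cardinal.{u}} (hm : m < l) : succ m < l := by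
  refine (succ_le_of_lt hm).lt_of_ne fun e => ?_
  subst e
  have h0 : ℵ₀ ≤ m := lt_succ_iff.1 h.1
  have hJ : ∀ d : Ordinal.{u}, ∃ J : Set Ordinal.{u} → Ordinal.{u}, (Iio d).Infinite →
      ∀ Y ⊆ Iio d, #Y = #(Iio d) → ∀ s ∈ Iio d, ∃ x ⊆ Y, x.Countable ∧ x.Infinite ∧ J x = s :=
    fun d => by
      by_cases hd : (Iio d).Infinite
      · exact (gp hd).imp fun _ h _ => h
      · exact ⟨0, fun h => (hd h).elim⟩
  choose J hJ using hJ
  refine not_arrow (aleph0_pos.trans h.1) (fun t => J (sSup t) (t ∩ Iio (sSup t)))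
    (fun A a1 a2 ξ hξ => ?_) h.2
  have lim := isSuccLimit_ord h.1.le
  obtain ⟨d, d1, d2⟩ := seg (X := A \ Iio (ξ + 1)) (τ := lift.{u + 1} m)
    (by rw [tail h.1.le a2 (lim.add_one_lt hξ)]; exact lift_lt.2 hm)
  have d3 : #(Iio d) ≤ lift.{u + 1} m := by
    rw [mk_Iio_ordinal, lift_le, ← lt_succ_iff]
    exact lt_ord.1 (a1 d1.1)
  have d4 := d3.antisymm (d2 ▸ mk_le_mk_of_subset inter_subset_right)
  obtain ⟨x, x1, x2, x3, x4⟩ := hJ d (infinite_coe_iff.1 (infinite_iff.2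
    (d4 ▸ aleph0_le_lift.2 h0))) _ inter_subset_right (d2.trans d4.symm) ξ
    (mem_Iio.2 (add_one_le_iff.1 (not_lt.1 d1.2)))
  have e : sSup (insert d x) = d := IsGreatest.csSup_eq ⟨mem_insert _ _, by
    rintro a (rfl | ha)
    exacts [le_rfl, (x1 ha).2.le]⟩
  refine ⟨insert d x, ⟨insert_subset d1.1 fun a ha => (x1 ha).1.1, x2.insert d,
    x3.mono (subset_insert _ _), e.trans_lt (a1 d1.1)⟩, ?_⟩
  rw [e, insert_inter_of_notMem self_notMem_Iio, inter_eq_left.2 fun a ha => (x1 ha).2, x4]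

theorem Magidor.glue (h : Magidor l) : ∃ a < l, 0 < a ∧ Arrow l a := by
  by_contra hn
  push Not at hn
  have hf : ∀ d : Ordinal.{u}, ∃ f : Set Ordinal.{u} → Ordinal.{u}, d < l.ord → ∀ A ⊆ Iio l.ord,
      #A = lift.{u + 1} l → ∀ ξ < (succ d.card).ord, ∃ x ∈ Bd l A, f x = ξ := fun d => by
    by_cases hd : d < l.ord
    · exact (of_not_arrow (hn _ (h.lim (lt_ord.1 hd)) (succ_pos _))).imp fun _ h _ => h
    · exact ⟨0, fun h => (hd h).elim⟩
  choose f hf using hf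
  refine not_arrow (aleph0_pos.trans h.1) (fun t => f (sInf t) (t \ {sInf t}))
    (fun A a1 a2 ξ hξ => ?_) h.2
  have lim := isSuccLimit_ord h.1.le
  obtain ⟨d, d1, -⟩ := seg (X := A \ Iio ξ) (τ := 0)
    (by rw [tail h.1.le a2 hξ]; simpa using aleph0_pos.trans h.1)
  obtain ⟨x, ⟨x1, x2, x3, x4⟩, x5⟩ := hf d (a1 d1.1) (A \ Iio (d + 1)) (sdiff_subset.trans a1)
    (tail h.1.le a2 (lim.add_one_lt (a1 d1.1))) ξ
    (lt_ord.2 (lt_succ_iff.2 (Ordinal.card_le_card (not_lt.1 d1.2))))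
  have x6 : ∀ a ∈ x, d < a := fun a ha => add_one_le_iff.1 (not_lt.1 (x1 ha).2)
  have e : sInf (insert d x) = d := IsLeast.csInf_eq ⟨mem_insert _ _, by
    rintro a (rfl | ha)
    exacts [le_rfl, (x6 a ha).le]⟩
  have b : BddAbove x := ⟨l.ord, fun a ha => (a1 (x1 ha).1).le⟩
  refine ⟨insert d x, ⟨insert_subset d1.1 fun a ha => (x1 ha).1, x2.insert d,
    x3.mono (subset_insert _ _), sup_lt ?_ x4⟩, ?_⟩
  · obtain ⟨c, hc⟩ := x3.nonempty
    rintro a (rfl | ha)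
    exacts [(x6 c hc).le.trans (le_csSup b hc), le_csSup b ha]
  · rw [e, insert_sdiff_self_of_notMem fun h => (x6 d h).false, x5]

theorem clos (hl : ℵ₀ < l) (hk : 0 < k) (hA : Arrow l k) {θ : Cardinal.{u}} (hθ : θ < l)
    {G : Set Ordinal.{u} → Set Ordinal.{u}} (hG : ∀ x, x.Countable → (G x).Countable) :
    ∃ B ⊆ Iio l.ord, #B = lift.{u + 1} θ ∧ ¬Iio k.ord ⊆ Cl G B := by
  by_contra hn
  push Not at hn
  obtain ⟨D, hD⟩ := dec (α := Ordinal.{u})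
  have hH : ∀ x : Set Ordinal.{u}, ∃ H : Set ℕ → Ordinal.{u}, x.Countable → Cl G x ⊆ range H :=
    fun x => by
      by_cases hx : x.Countable
      · obtain ⟨φ⟩ : Nonempty (Cl G x ↪ Set ℕ) := lift_mk_le'.1 (by simpa using cl_small hG hx)
        exact ⟨extend φ Subtype.val 0, fun _ a ha =>
          ⟨φ ⟨a, ha⟩, φ.injective.extend_apply _ _ _⟩⟩
      · exact ⟨0, fun h => (hx h).elim⟩
  choose H hH using hH
  refine not_arrow hk (fun t => H (D t).1 (D t).2) (fun A a1 a2 ξ hξ => ?_) hA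
  obtain ⟨d, d1, d2⟩ := seg (X := A) (a2 ▸ lift_lt.{u, u + 1}.2 hθ)
  obtain ⟨e, e1, e2⟩ := seg (X := A \ Iio d) (τ := ℵ₀)
    (by rw [tail hl.le a2 (a1 d1)]; simpa using hl)
  obtain ⟨x, x1, x2, x3⟩ := cl_supp (hn _ (inter_subset_left.trans a1) d2 hξ)
  obtain ⟨w, hw⟩ := hH x x2 x3
  let φ := (infinite_coe_iff.1 (infinite_iff.2 e2.ge)).natEmbedding
  obtain ⟨g, hg⟩ := wellQuasiOrdered_le.exists_monotone_subseq fun n => (φ n : Ordinal.{u})
  obtain ⟨y, y1, y2, y3⟩ := hD x (fun n => φ (g n)) (Monotone.strictMono_of_injective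
    (fun m n h => hg m n h) (Subtype.val_injective.comp (φ.injective.comp g.injective)))
    (fun a ha => (x1 ha).2.trans_le (not_lt.1 (φ _).2.1.2)) w
  have y4 : y ⊆ (A \ Iio d) ∩ Iio e := y1.trans (by rintro _ ⟨n, rfl⟩; exact (φ _).2)
  refine ⟨x ∪ y, ⟨union_subset (x1.trans inter_subset_left) fun a ha => (y4 ha).1.1,
    x2.union ((countable_range _).mono y1), y2.mono subset_union_right, sup_lt ?_ (a1 e1.1)⟩,
    by rw [y3]; exact hw⟩
  rintro a (ha | ha)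
  exacts [((x1 ha).2.trans_le (not_lt.1 e1.2)).le, (y4 ha).2.le]

end Pool.Agent.P.MP_36361b_lc
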