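import Mathlib

/-! Magidor cardinals: definitions. -/

set_option autoImplicit false

universe u

namespace Pool.Agent.P.MP_36361b_lc

open Cardinal Set Order

/-- The countably infinite subsets of `A` whose supremum is below `l`. -/
def Bd (l : Cardinal.{u}) (A : Set Ordinal.{u}) : Set (Set Ordinal.{u}) :=
  {x | x ⊆ A ∧ x.Countable ∧ x.Infinite ∧ sSup x < l.ord}

/-- The square bracket relation with `k` colours for countably infinite bounded subsets of `l`. -/
def Arrow (l k : Cardinal.{u}) : Prop :=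
  ∀ f : Set Ordinal.{u} → Ordinal.{u}, (∀ x, f x < k.ord) →
    ∃ A ⊆ Iio l.ord, #A = lift.{u + 1} l ∧ f '' Bd l A ≠ Iio k.ord

/-- Magidor cardinals. -/
def Magidor (l : Cardinal.{u}) : Prop := ℵ₀ < l ∧ Arrow l l

/-- Weakly inaccessible cardinals. -/
def WI (k : Cardinal.{u}) : Prop := ℵ₀ < k ∧ k.IsRegular ∧ IsSuccLimit k

/-- The weakly inaccessible cardinals below `l` are unbounded in `l`. -/
def LimWI (l : Cardinal.{u}) : Prop := ∀ m < l, ∃ k, m < k ∧ k < l ∧ WI k

/-- The countably closed Chang transfer from the pair `(m⁺, m)` to the pair `(r⁺, r)`. -/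
def Chang (m r : Cardinal.{u}) : Prop :=
  ∀ F : Set Ordinal.{u} → Ordinal.{u}, (∀ x, F x < (succ m).ord) →
    ∃ X ⊆ Iio (succ m).ord, (∀ x ⊆ X, x.Countable → F x ∈ X) ∧
      #X = lift.{u + 1} (succ r) ∧ #(X ∩ Iio m.ord : Set Ordinal.{u}) = lift.{u + 1} r

/-- `b` is a limit point of `S`. -/
def LimPt (b : Ordinal.{u}) (S : Set Ordinal.{u}) : Prop :=
  0 < b ∧ ∀ a < b, (S ∩ Ioo a b).Nonempty

/-- Jensen's square principle at `m`. -/
def Square (m : Cardinal.{u}) : Prop :=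
  ∃ C : Ordinal.{u} → Set Ordinal.{u}, ∀ a < (succ m).ord, IsSuccLimit a →
    C a ⊆ Iio a ∧ LimPt a (C a) ∧
    Ordinal.type (α := C a) (· < ·) ≤ Ordinal.lift.{u + 1} m.ord ∧
    ∀ b < a, LimPt b (C a) → b ∈ C a ∧ C b = C a ∩ Iio b

end Pool.Agent.P.MP_36361b_lc
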