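import Pool.Agent.P.MP_36361b_lc.Clos

/-! Countably closed hulls and the images of regular cardinals. -/

set_option autoImplicit false

universe u

namespace Pool.Agent.P.MP_36361b_lc

open Cardinal Set Function Order

variable {l k : Cardinal.{u}}

theorem inj_le {S T : Set Ordinal.{u}} (h : #S ≤ #T) :
    ∃ e : Ordinal.{u} → Ordinal.{u}, InjOn e S ∧ MapsTo e S T := by
  obtain ⟨φ⟩ := h
  have key : ∀ a (ha : a ∈ S), extend Subtype.val (fun a => (φ a : Ordinal.{u})) 0 a = φ ⟨a, ha⟩ :=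
    fun a ha => Subtype.val_injective.extend_apply _ _ (⟨a, ha⟩ : S)
  refine ⟨_, fun a ha b hb e => ?_, fun a ha => key a ha ▸ (φ _).2⟩
  rw [key a ha, key b hb] at e
  exact congrArg Subtype.val (φ.injective (Subtype.ext e))

theorem ex_e (d : Ordinal.{u}) : ∃ e : Ordinal.{u} → Ordinal.{u}, InjOn e (Iio d) ∧
    MapsTo e (Iio d) (Iio d.card.ord) := inj_le (by rw [mk_ord, mk_Iio_ordinal])

theorem ex_c (d : Ordinal.{u}) : ∃ i c : Ordinal.{u} → Ordinal.{u},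
    ∀ a < d, i a < d.cof.ord ∧ a ≤ c (i a) ∧ c (i a) < d := by
  obtain ⟨s, h1, h2⟩ := exists_cof_eq (Iio d)
  obtain ⟨g, g1, g2⟩ := inj_le (S := Subtype.val '' s) (T := Iio d.cof.ord) (by
    rw [mk_image_eq Subtype.val_injective, h2, Ordinal.cof_Iio, mk_ord, Ordinal.lift_cof])
  have : ∀ a, ∃ b, a < d → b ∈ Subtype.val '' s ∧ a ≤ b := fun a => by
    by_cases h : a < d
    · obtain ⟨b, hb, e⟩ := h1 ⟨a, h⟩
      exact ⟨b, fun _ => ⟨⟨b, hb, rfl⟩, e⟩⟩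
    · exact ⟨0, fun h' => (h h').elim⟩
  choose b hb using this
  refine ⟨fun a => g (b a), invFunOn g (Subtype.val '' s), fun a ha => ⟨g2 (hb a ha).1, ?_⟩⟩
  rw [g1.leftInvOn_invFunOn (hb a ha).1]
  obtain ⟨⟨c, -, e⟩, h⟩ := hb a ha
  exact ⟨h, e ▸ c.2⟩

theorem le_succ_of {Y : Set Ordinal.{u}} {c : Cardinal.{u + 1}}
    (h : ∀ a ∈ Y, #(Y ∩ Iio a : Set Ordinal.{u}) ≤ c) : #Y ≤ succ c := not_lt.1 fun e => by
  obtain ⟨d, d1, d2⟩ := seg e
  exact (lt_succ c).not_ge (d2 ▸ h d d1)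

theorem hull (hl : Magidor l) (hk : 0 < k) (hA : Arrow l k) {θ : Cardinal.{u}} (hθ : θ < l)
    (J : Set Ordinal.{u} → Ordinal.{u}) (F : Ordinal.{u} → Set Ordinal.{u} → Ordinal.{u}) :
    ∃ X ⊆ Iio l.ord, ¬Iio k.ord ⊆ X ∧ (∀ x ⊆ X, x.Countable → J x < l.ord → J x ∈ X) ∧
      (∀ d ∈ X, ∀ y ⊆ X ∩ Iio d, y.Countable → F d y < l.ord → F d y ∈ X) ∧
      ∀ η ≤ θ, η.IsRegular → ∃ ν : Cardinal.{u}, ν.ord ∈ X ∧ ν.IsRegular ∧
        #(X ∩ Iio ν.ord : Set Ordinal.{u}) = lift.{u + 1} η ∧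
        ∀ μ, ν = succ μ → lift.{u + 1} η = succ #(X ∩ Iio μ.ord : Set Ordinal.{u}) := by
  choose e e1 e2 using ex_e.{u}
  choose i c hc using ex_c.{u}
  let O : ℕ → Ordinal.{u} → Ordinal.{u} → Set Ordinal.{u} → Ordinal.{u} := fun n d a x =>
    match n with
    | 0 => F d (x ∩ Iio d)
    | 1 => d.card.ord
    | 2 => d.cof.ord
    | 3 => (invFun succ d.card).ord
    | 4 => e d a
    | 5 => i d a
    | _ => c d a
  let G : Set Ordinal.{u} → Set Ordinal.{u} := fun x => insert (J x)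
    ((fun p : ℕ × Ordinal.{u} × Ordinal.{u} => O p.1 p.2.1 p.2.2 x) '' (Set.univ ×ˢ x ×ˢ x)) ∩
      Iio l.ord
  obtain ⟨B, b1, b2, b3⟩ := clos hl.1 hk hA (hl.lim hθ) (G := G) fun x hx =>
    (((countable_univ.prod (hx.prod hx)).image _).insert _).mono inter_subset_left
  have hX : Cl G B ⊆ Iio l.ord := cl_sub b1 fun _ _ _ => inter_subset_right
  have c1 := cld_cl (G := G) B
  have c2 : lift.{u + 1} θ < #(Cl G B) :=
    (lift_lt.2 (lt_succ θ)).trans_le (b2 ▸ mk_le_mk_of_subset (sub_cl B))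
  generalize Cl G B = X at b3 hX c1 c2
  have c3 : ∀ n, ∀ d ∈ X, ∀ a ∈ X, O n d a {d, a} ≤ d → O n d a {d, a} ∈ X :=
    fun n d hd a ha h => c1 {d, a} (pair_subset hd ha) (to_countable _)
      ⟨Or.inr ⟨(n, d, a), ⟨trivial, Or.inl rfl, Or.inr rfl⟩, rfl⟩, h.trans_lt (hX hd)⟩
  have c4 : ∀ d ∈ X, #(X ∩ Iio d : Set Ordinal.{u}) ≤ #(X ∩ Iio d.card.ord : Set Ordinal.{u}) :=
    fun d hd => by
      rw [← mk_image_eq_of_injOn _ _ ((e1 d).mono inter_subset_right)]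
      refine mk_le_mk_of_subset ?_
      rintro _ ⟨a, ha, rfl⟩
      exact ⟨c3 4 d hd a ha.1 ((e2 d ha.2).le.trans (ord_card_le d)), e2 d ha.2⟩
  refine ⟨X, hX, b3, fun x h1 h2 h3 => c1 x h1 h2 ⟨Or.inl rfl, h3⟩, fun d hd y h1 h2 h3 => ?_,
    fun η h1 h2 => ?_⟩
  · refine c1 (insert d y) (insert_subset hd (h1.trans inter_subset_left)) (h2.insert d)
      ⟨Or.inr ⟨(0, d, d), ⟨trivial, Or.inl rfl, Or.inl rfl⟩, ?_⟩, h3⟩
    change F d (insert d y ∩ Iio d) = _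
    rw [insert_inter_of_notMem self_notMem_Iio, inter_eq_left.2 (h1.trans inter_subset_right)]
  obtain ⟨d₀, h3, h4⟩ := seg ((lift_le.2 h1).trans_lt c2)
  obtain ⟨d, ⟨d1, d2⟩, d3⟩ := wellFounded_lt.has_min
    {d ∈ X | lift.{u + 1} η ≤ #(X ∩ Iio d : Set Ordinal.{u})} ⟨d₀, h3, h4.ge⟩
  have d4 : ∀ a ∈ X, a < d → #(X ∩ Iio a : Set Ordinal.{u}) < lift.{u + 1} η :=
    fun a ha h => not_le.1 fun e => d3 a ⟨ha, e⟩ h
  have d5 : #(X ∩ Iio d : Set Ordinal.{u}) = lift.{u + 1} η := d2.antisymm' (h4 ▸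
    mk_le_mk_of_subset (inter_subset_inter_right _ (Iio_subset_Iio (not_lt.1 (d3 d₀ ⟨h3, h4.ge⟩)))))
  obtain ⟨ν, rfl⟩ : ∃ ν : Cardinal.{u}, ν.ord = d := ⟨d.card, (ord_card_le d).eq_of_not_lt fun h =>
    (d4 _ (c3 1 d d1 d d1 h.le) h).not_ge (d2.trans (c4 d d1))⟩
  have hη : (lift.{u + 1} η).IsRegular := h2.lift
  refine ⟨ν, d1, ⟨?_, not_lt.1 fun h => ?_⟩, d5, fun μ h => ?_⟩
  · have := (hη.1.trans d2).trans (mk_le_mk_of_subset inter_subset_right)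
    rwa [mk_ord, aleph0_le_lift] at this
  · have h' := ord_lt_ord.2 h
    have := (card_biUnion_lt_iff_forall_of_isRegular (s := X ∩ Iio ν.ord.cof.ord)
      (t := fun j _ => {a ∈ X | a ≤ c ν.ord j ∧ c ν.ord j ∈ X ∩ Iio ν.ord}) hη
      (d4 _ (c3 2 _ d1 _ d1 h'.le) h')).2 fun j _ => by
        by_cases hj : c ν.ord j ∈ X ∩ Iio ν.ord
        · refine (mk_le_mk_of_subset (t := insert (c ν.ord j) (X ∩ Iio (c ν.ord j)))
            fun a ha => ha.2.1.eq_or_lt.imp id fun h => ⟨ha.1, h⟩).trans_lt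
            (mk_insert_le.trans_lt (add_lt_of_lt hη.1 (d4 _ hj.1 hj.2)
              (one_lt_aleph0.trans_le hη.1)))
        · simpa [hj] using hη.pos
    refine this.not_ge (d2.trans (mk_le_mk_of_subset fun a ha => ?_))
    obtain ⟨i1, i2, i3⟩ := hc _ a ha.2
    have i4 := c3 5 _ d1 a ha.1 (i1.trans h').le
    exact mem_biUnion (⟨i4, i1⟩ : _ ∈ X ∩ Iio ν.ord.cof.ord)
      ⟨ha.1, i2, c3 6 _ d1 _ i4 i3.le, i3⟩
  · subst h
    have m1 : μ.ord < (succ μ).ord := ord_lt_ord.2 (lt_succ μ)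
    have m2 : O 3 (succ μ).ord (succ μ).ord {(succ μ).ord, (succ μ).ord} = μ.ord := by
      change (invFun succ (succ μ).ord.card).ord = _
      rw [card_ord, leftInverse_invFun succ_injective]
    have m3 := c3 3 _ d1 _ d1 (m2 ▸ m1.le)
    rw [m2] at m3
    refine le_antisymm (d2.trans (le_succ_of fun a ha => ?_)) (succ_le_of_lt (d4 _ m3 m1))
    refine (mk_le_mk_of_subset (inter_subset_inter_left _ inter_subset_left)).trans
      ((c4 a ha.1).trans (mk_le_mk_of_subset (inter_subset_inter_right _ (Iio_subset_Iio ?_))))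
    exact ord_le_ord.2 (lt_succ_iff.1 (lt_ord.1 ha.2))

end Pool.Agent.P.MP_36361b_lc
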