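import Pool.Agent.P.MP_36361b_lc.Hull

/-! Magidor cardinals that are not limits of weakly inaccessible cardinals. -/

set_option autoImplicit false

universe u

namespace Pool.Agent.P.MP_36361b_lc

open Cardinal Set Function Order

variable {l k : Cardinal.{u}}

theorem le_of_seg {X : Set Ordinal.{u}} {η ν : Cardinal.{u}}
    (h : #(X ∩ Iio ν.ord : Set Ordinal.{u}) = lift.{u + 1} η) : η ≤ ν :=
  lift_le.{u + 1}.1 (h ▸ mk_ord ν ▸ mk_le_mk_of_subset inter_subset_right)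

theorem inf_ord (h : ℵ₀ ≤ k) : (Iio k.ord).Infinite :=
  infinite_coe_iff.1 (infinite_iff.2 (mk_ord k ▸ aleph0_le_lift.2 h))

theorem Magidor.not_regular (hl : Magidor l) : ¬l.IsRegular := fun h => by
  obtain ⟨J, hJ⟩ := gp (inf_ord h.1)
  refine not_arrow h.pos J (fun A a1 a2 ξ hξ => ?_) hl.2
  obtain ⟨x, x1, x2, x3, x4⟩ := hJ A a1 (a2.trans (mk_ord l).symm) ξ hξ
  refine ⟨x, ⟨x1, x2, x3, Ordinal.sSup_lt_of_lt_cof ?_ fun a ha => a1 (x1 ha)⟩, x4⟩
  rw [← Ordinal.lift_cof, h.cof_ord]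
  exact (le_aleph0_iff_set_countable.2 x2).trans_lt (by simpa using hl.1)

theorem wi_of {ν : Cardinal.{u}} (h : ν.IsRegular) (h' : ℵ₀ < ν) (h'' : ∀ μ, ν ≠ succ μ) : WI ν :=
  ⟨h', h, Cardinal.isSuccLimit_iff.2 ⟨h.ne_zero, by_contra fun e =>
    let ⟨μ, e⟩ := mem_range_succ_of_not_isSuccPrelimit e; h'' μ e.symm⟩⟩

theorem no_wi (hl : Magidor l) (hn : ¬LimWI l) (hk : k < l) (hw : WI k) : ¬Arrow l k := by
  intro hA
  unfold LimWI at hn
  push Not at hn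
  obtain ⟨m, m1, m2⟩ := hn
  have s1 : ∀ c ∈ {c | c < l ∧ WI c}, c ≤ m := fun c hc => not_lt.1 fun e => m2 c e hc.1 hc.2
  have s2 : BddAbove {c | c < l ∧ WI c} := ⟨m, s1⟩
  have s3 := le_csSup s2 ⟨hk, hw⟩
  have s4 := (csSup_le' s1).trans_lt m1
  have s5 : ∀ c, (∀ c' ∈ {c | c < l ∧ WI c}, c' ≤ c) → sSup {c | c < l ∧ WI c} ≤ c :=
    fun c h => csSup_le' h
  have s6 : ∀ c ∈ {c | c < l ∧ WI c}, c ≤ sSup {c | c < l ∧ WI c} := fun c h => le_csSup s2 h
  generalize sSup {c | c < l ∧ WI c} = σ at s3 s4 s5 s6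
  obtain ⟨J, hJ⟩ := gp (inf_ord (hw.1.le.trans s3))
  obtain ⟨X, x1, x2, x3, -, x5⟩ := hull hl hw.2.1.pos hA m1 J 0
  obtain ⟨c, hc⟩ := mem_range_lift_of_le
    ((mk_le_mk_of_subset (inter_subset_right (s := X))).trans_eq (mk_ord σ))
  have e : σ ≤ c := s5 c fun η hη => by
    obtain ⟨ν, n1, n2, n3, n4⟩ := x5 η (s1 η hη) hη.2.2.1
    have := s6 ν ⟨ord_lt_ord.1 (x1 n1), wi_of n2 (hη.2.1.trans_le (le_of_seg n3)) fun μ e => by
      have e1 := n4 μ e
      obtain ⟨c', e2⟩ := mem_range_lift_of_le ((le_succ _).trans e1.ge)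
      rw [← e2, ← lift_succ, lift_inj] at e1
      exact hη.2.2.2.succ_ne c' e1.symm⟩
    exact lift_le.{u + 1}.1 (n3 ▸ hc ▸ mk_le_mk_of_subset
      (inter_subset_inter_right _ (Iio_subset_Iio (ord_le_ord.2 this))))
  refine x2 fun s hs => ?_
  have hs' : s < σ.ord := hs.trans_le (ord_le_ord.2 s3)
  obtain ⟨x, y1, y2, -, rfl⟩ := hJ _ inter_subset_right
    (by rw [← hc, mk_ord, e.antisymm (le_of_seg hc.symm)]) s hs'
  exact x3 x (y1.trans inter_subset_left) y2 (hs'.trans (ord_lt_ord.2 s4))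

theorem chang (hl : Magidor l) (hn : ¬LimWI l) {r : Cardinal.{u}} (h0 : ℵ₀ ≤ r) (hr : r < l)
    (hA : Arrow l (succ r)) : ∃ m, r < m ∧ m < l ∧ Chang m r := by
  by_contra hc
  push Not at hc
  have hF : ∀ m : Cardinal.{u}, ∃ F : Set Ordinal.{u} → Ordinal.{u}, r < m → m < l →
      (∀ x, F x < (succ m).ord) ∧ ∀ X ⊆ Iio (succ m).ord, (∀ x ⊆ X, x.Countable → F x ∈ X) →
        #X = lift.{u + 1} (succ r) → #(X ∩ Iio m.ord : Set Ordinal.{u}) ≠ lift.{u + 1} r :=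
    fun m => by
      by_cases h : r < m ∧ m < l
      · have := hc m h.1 h.2
        unfold Chang at this
        push Not at this
        exact this.imp fun _ h _ _ => h
      · exact ⟨0, fun a b => (h ⟨a, b⟩).elim⟩
  choose F hF using hF
  obtain ⟨J, hJ⟩ := gp (inf_ord (h0.trans (le_succ r)))
  obtain ⟨X, x1, x2, x3, x4, x5⟩ := hull hl (succ_pos r) hA (hl.lim hr) J
    fun d => F (invFun succ d.card)
  obtain ⟨ν, n1, n2, n3, n4⟩ := x5 _ le_rfl (isRegular_succ h0)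
  have n5 := ord_lt_ord.1 (x1 n1)
  refine no_wi hl hn n5 (wi_of n2 ((lt_succ_of_le h0).trans_le (le_of_seg n3)) ?_)
    (hA.mono (succ_pos r) (le_of_seg n3))
  rintro μ rfl
  have e := (succ_injective ((lift_succ r).symm.trans (n4 μ rfl))).symm
  have m1 := ord_lt_ord.2 (lt_succ μ)
  rcases (le_of_seg e).eq_or_lt with rfl | h
  · refine x2 fun s hs => ?_
    obtain ⟨x, y1, y2, -, rfl⟩ := hJ _ inter_subset_right (n3.trans (mk_ord _).symm) s hs
    exact x3 x (y1.trans inter_subset_left) y2 (hs.trans (x1 n1))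
  · obtain ⟨f1, f2⟩ := hF μ h ((lt_succ μ).trans n5)
    refine f2 _ inter_subset_right (fun x hx hx' => ⟨?_, f1 x⟩) n3
      (by rw [inter_assoc, inter_eq_right.2 (Iio_subset_Iio m1.le), e])
    have := x4 _ n1 x hx hx'
    rw [card_ord, leftInverse_invFun succ_injective] at this
    exact this ((f1 x).trans (x1 n1))

theorem type_seg {S : Set Ordinal.{u}} {b : Ordinal.{u}} (h : b ∈ S) :
    Ordinal.type (α := (S ∩ Iio b : Set Ordinal.{u})) (· < ·) =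
      Ordinal.typein (α := S) (· < ·) ⟨b, h⟩ := by
  rw [← Ordinal.type_subrel]
  exact RelIso.ordinalType_congr ⟨⟨fun a => ⟨⟨a, a.2.1⟩, a.2.2⟩, fun a => ⟨a.1, a.1.2, a.2⟩,
    fun _ => rfl, fun _ => rfl⟩, Iff.rfl⟩

theorem LimPt.lim {b : Ordinal.{u}} {S : Set Ordinal.{u}} (h : LimPt b S) : IsSuccLimit b :=
  ⟨fun e => (e h.1.le).not_gt h.1, fun a e =>
    let ⟨_, _, h1, h2⟩ := h.2 a e.lt; e.2 h1 h2⟩

theorem Chang.not_square {m r : Cardinal.{u}} (h : Chang m r) (h0 : ℵ₀ ≤ r) (hr : r < m) :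
    ¬Square m := by
  classical
  rintro ⟨C, hC⟩
  have hm := isRegular_succ (h0.trans hr.le)
  have ho : ∀ b : Ordinal.{u}, ∃ o : Ordinal.{u}, Ordinal.type (α := C b) (· < ·) ≤
      Ordinal.lift.{u + 1} m.ord → Ordinal.lift.{u + 1} o = Ordinal.type (α := C b) (· < ·) :=
    fun b => by
      by_cases hb : Ordinal.type (α := C b) (· < ·) ≤ Ordinal.lift.{u + 1} m.ord
      · exact (Ordinal.mem_range_lift_of_le hb).imp fun _ h _ => h
      · exact ⟨0, fun h => (hb h).elim⟩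
  choose o ho using ho
  let f : Set Ordinal.{u} → Ordinal.{u} := fun x => if x = {sSup x} then o (sSup x) else sSup x
  obtain ⟨X, x1, x2, x3, x4⟩ := h (fun x => if f x < (succ m).ord then f x else 0) fun x => by
    split_ifs with e
    exacts [e, hm.ord_pos]
  have x5 : ∀ x ⊆ X, x.Countable → f x < (succ m).ord → f x ∈ X := fun x a b c => by
    simpa only [if_pos c] using x2 x a b
  have d0 := Ordinal.sSup_add_one_lt_of_lt_cof (s := X) (a := (succ m).ord) (by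
    rw [← Ordinal.lift_cof, hm.cof_ord, x3, lift_lt]; exact succ_lt_succ hr) x1
  obtain ⟨d, d1, d2⟩ := wellFounded_lt.has_min
    {d | lift.{u + 1} (succ r) ≤ #(X ∩ Iio d : Set Ordinal.{u})} ⟨(succ m).ord, by
      rw [mem_ofPred_eq, inter_eq_left.2 x1, x3]⟩
  have d3 : d < (succ m).ord := (not_lt.1 (d2 _ (by
    rw [mem_ofPred_eq, inter_eq_left.2 fun a ha => mem_Iio.2 (add_one_le_iff.1 (le_csSup
      (s := (· + 1) '' X) ⟨(succ m).ord, by
        rintro _ ⟨c, hc, rfl⟩; exact add_one_le_iff.2 (x1 hc)⟩ ⟨a, ha, rfl⟩)), x3]))).trans_lt d0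
  have hη : (lift.{u + 1} (succ r)).IsRegular := (isRegular_succ h0).lift
  have d4 : ∀ a < d, #(X ∩ Iic a : Set Ordinal.{u}) < lift.{u + 1} (succ r) := fun a ha =>
    (mk_le_mk_of_subset (t := insert a (X ∩ Iio a))
      fun c hc => hc.2.eq_or_lt.imp id fun h => ⟨hc.1, h⟩).trans_lt (mk_insert_le.trans_lt
        (add_lt_of_lt hη.1 (not_le.1 fun e => d2 a e ha) (one_lt_aleph0.trans_le hη.1)))
  have d5 : ∀ y ⊆ Iio d, #y < lift.{u + 1} (succ r) → ∃ b ∈ X ∩ Iio d, ∀ a ∈ y, a < b :=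
    fun y hy hc => by_contra fun hn => by
      push Not at hn
      refine ((card_biUnion_lt_iff_forall_of_isRegular (s := y) (t := fun a _ => X ∩ Iic a) hη
        hc).2 fun a ha => d4 a (hy ha)).not_ge (le_trans d1 (mk_le_mk_of_subset fun b hb => ?_))
      obtain ⟨a, ha, e⟩ := hn b hb
      exact mem_biUnion ha ⟨hb.1, e⟩
  have ω1 : ∀ y : Set Ordinal.{u}, y.Countable → #y < lift.{u + 1} (succ r) := fun y hy =>
    (le_aleph0_iff_set_countable.2 hy).trans_lt (by simpa using h0)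
  have d6 : LimPt d X := by
    obtain ⟨b, hb, -⟩ := d5 ∅ (empty_subset _) (ω1 _ countable_empty)
    refine ⟨zero_le.trans_lt hb.2, fun a ha => ?_⟩
    obtain ⟨c, hc, e⟩ := d5 {a} (singleton_subset_iff.2 ha) (ω1 _ (countable_singleton a))
    exact ⟨c, hc.1, e a rfl, hc.2⟩
  obtain ⟨-, c2, c3, c4⟩ := hC d d3 d6.lim
  have step : ∀ a : Iio d, ∃ b : Iio d, b.1 ∈ X ∧ ∃ c ∈ C d, a.1 < c ∧ c < b.1 := fun a => by
    obtain ⟨c, h1, h2, h3⟩ := c2.2 a a.2
    obtain ⟨b, h4, h5, h6⟩ := d6.2 c h3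
    exact ⟨⟨b, h6⟩, h4, c, h1, h2, h5⟩
  choose g g1 g2 using step
  have unb : ∀ a < d, ∃ b ∈ X, b < d ∧ LimPt b (C d) ∧ a < b := fun a ha => by
    let s : ℕ → Ordinal.{u} := fun n => (g^[n + 1] ⟨a, ha⟩ : Iio d)
    have s1 : ∀ n, ∃ c ∈ C d, s n < c ∧ c < s (n + 1) := fun n => by
      simp only [s, iterate_succ_apply' g (n + 1)]
      exact g2 _
    have s2 : range s ⊆ X ∩ Iio d := by
      rintro _ ⟨n, rfl⟩
      refine ⟨?_, (g^[n + 1] ⟨a, ha⟩).2⟩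
      simp only [s, iterate_succ_apply' g n]
      exact g1 _
    obtain ⟨b, hb, s3⟩ := d5 _ (s2.trans inter_subset_right) (ω1 _ (countable_range s))
    have s4 : ∀ n, s n ≤ sSup (range s) := fun n =>
      le_csSup ⟨b, fun c hc => (s3 c hc).le⟩ ⟨n, rfl⟩
    have s5 : sSup (range s) < d := sup_lt (fun c hc => (s3 c hc).le) hb.2
    have s6 : ∀ n, s n < sSup (range s) := fun n =>
      let ⟨_, _, h1, h2⟩ := s1 n; h1.trans (h2.trans_le (s4 _))
    have s7 : f (range s) = sSup (range s) :=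
      if_neg fun e => (s6 0).ne (mem_singleton_iff.1 (e.le (mem_range_self 0)))
    obtain ⟨c, -, h1, h2⟩ := g2 ⟨a, ha⟩
    refine ⟨_, s7 ▸ x5 _ (s2.trans inter_subset_left) (countable_range s) (s7 ▸ s5.trans d3), s5,
      ⟨zero_le.trans_lt (s6 0), fun p hp => ?_⟩, h1.trans (h2.trans (s6 0))⟩
    obtain ⟨_, ⟨n, rfl⟩, e⟩ := exists_lt_of_lt_csSup (range_nonempty s) hp
    obtain ⟨c, h1, h2, h3⟩ := s1 n
    exact ⟨c, h1, e.trans h2, h3.trans (s6 _)⟩
  have key : ∀ b (hb : b < d ∧ LimPt b (C d)), Ordinal.lift.{u + 1} (o b) =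
      Ordinal.typein (α := C d) (· < ·) ⟨b, (c4 b hb.1 hb.2).1⟩ := fun b hb => by
    rw [ho b (hC b (hb.1.trans d3) hb.2.lim).2.2.1, ← type_seg, ← (c4 b hb.1 hb.2).2]
  have inj : InjOn o {b ∈ X | b < d ∧ LimPt b (C d)} := fun b hb c hc e =>
    congrArg Subtype.val (Ordinal.typein_injective _
      ((key b hb.2).symm.trans (e ▸ key c hc.2)))
  obtain ⟨b, hb, e⟩ := d5 {b ∈ X | b < d ∧ LimPt b (C d)} (fun b hb => hb.2.1) (by
    rw [← mk_image_eq_of_injOn _ _ inj, lift_succ, lt_succ_iff, ← x4]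
    refine mk_le_mk_of_subset ?_
    rintro _ ⟨b, hb, rfl⟩
    have e1 : o b < m.ord := Ordinal.lift_lt.{u + 1}.1
      (key b hb.2 ▸ (Ordinal.typein_lt_type _ _).trans_le c3)
    have e2 : f {b} = o b := by simp [f]
    exact ⟨e2 ▸ x5 {b} (singleton_subset_iff.2 hb.1) (countable_singleton b)
      (e2 ▸ e1.trans (ord_lt_ord.2 (lt_succ m))), e1⟩)
  obtain ⟨c, h1, h2, h3, h4⟩ := unb b hb.2
  exact h4.asymm (e c ⟨h1, h2, h3⟩)

end Pool.Agent.P.MP_36361b_lc
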